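import Mathlib
import Pool.Agent.Q70.MM.SpecDefs

/-!
# `ℓ`-Galois special points and abelian varieties with arbitrary factors

Let `x` be a point of the moduli space of principally polarized abelian varieties defined over a
number field (or over any finitely generated field) `k`, such that `A_x` is isogenous to `B × Z`, where
`B = A_y` satisfies a condition on **one** Frobenius element and **`Z = A_z` is arbitrary** up to a
mild condition on the eigenvalues of the same Frobenius element (for instance all simple factors
of `Z` have small dimension); the Mumford-Tate conjecture is not known for `Z`, and so it is not
known for `x`.  The theorem implies: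

* **if `B` is not of CM type, then `x` is not `ℓ`-Galois special**, for all `ℓ` different from the
  residue characteristic (so the assertion of the problem is true for `x`);
* in general **`x` is `ℓ`-Galois special if and only if `B` is of CM type and `z` is `ℓ`-Galois
  special**, so the assertion of the problem is true for `x` if and only if it is true for `z`.

What is proved in Lean is the equality of the groups in the definition of `ℓ`-Galois special points,
for the subvarieties `Y = Y₁ × Y₂` through `x = (y, z)` (and their images under Hecke
correspondences), in terms of invariants: let `Y₁` be a subvariety through `y` such that all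
Hodge classes of degree two of `B = A_y` are Hodge classes at all points of `Y₁` (for instance the
special subvariety with `G_{Y₁} = G_y`, which is of positive dimension if `B` is not of CM type), and
`Y₂` a subvariety through `z` with `G_{ℓ, Y₂} = G_{ℓ, z}` (for instance `{z}`). **Then
`G_{ℓ, Y₁ × Y₂} = G_{ℓ, x}`.**  The groups `G_ℓ` are reductive (Faltings, Deligne) and therefore
they are determined by their invariants in the tensor constructions; because of the polarizations
it is enough to consider the multilinear forms, with all Tate twists, that is, the Tate classes
(`SameTateClasses`).  The deduction of the two statements above: if `B` is not of CM type one takes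
for `Y₁` the special subvariety of `y` and `Y₂ = {z}`; if `z` is not `ℓ`-Galois special one takes `Y₁ =
{y}`; conversely if `B` is of CM type, `z` is `ℓ`-Galois special and `G_{ℓ, Y} = G_{ℓ, x}`, then the
factor corresponding to `Z` is constant on `Y` and the factor corresponding to `B` is of CM type
at the generic point of `Y`, hence constant.  (This is not formalized.)

The data (`TransferHolds`).  `Γ` is the Galois group of `k` and `Γ'` the (étale) fundamental group of a
smooth open part of `Y` over `k` (or the Galois group of its function field), `sp` the
specialization map (after a finite extension of `k`).  `W = H_1(B, ℚ)`, `T` the tangent space of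
`B`, `V` and `M` the Tate modules of `B` and of `Z` (tensor `ℚ`), with the action `ρ`, `τ` of `Γ` and
`ρ'`, `τ'` of `Γ'`; `χ` and `χ'` are the cyclotomic characters.  The theorems of Faltings on
semisimplicity and endomorphisms of `B` are part of `IsRealization`.  `DivisorsExtend`: the Hodge
classes of degree two of `B` are Tate classes for `Γ'`, since they extend over `Y₁`.  `M` can be the
realization of any motive.

The conditions.  Let `γ` be a Frobenius element of `Γ` at a place of good reduction, with a residue
field of `q = p ^ a` elements.  The characteristic polynomial of `γ` on the Tate module of `B` is the
product of the minimal polynomials of Weil numbers `π c l` which generate CM fields `K c`, `c` in a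
finite set `C`, `l` in a finite set `J c`.  The functions `n` on the complex embeddings of `K c` with
`n (conj φ) = - n φ` are an absolutely irreducible representation of the automorphisms of `ℂ`
(`OddAbsolutelyIrreducible`; this is the generic case).  The slopes are in general position in the
following sense.  Let the slope function of `π c l` be `τ ↦ log |τ (π c l)| + (log q) / 2` on the
embeddings `τ` of `K c` in the algebraic closure of `ℚ_p`, and `D c` the quadratic form `m ↦ ∑ τ, (∑
l, m l * slope (π c l) τ) ^ 2` in the rational variables `m l` (`slopeForm`);

* `IndependentSlopes`: for each `c` the slope functions of the `π c l` are linearly independent over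
  `ℚ`;
* `SeparatedPairs`: the indices `c` form pairs `c`, `β c` such that `K c` and `K c'` are unrelated
  (there are no equivariant maps between the odd functions) if `c'` is different from `c` and `β c`,
  and if `β c ≠ c` then `[K c : ℚ] ≠ [K (β c) : ℚ]`, or `[K c : ℚ] = 2 g` with odd `g` and `D c` and
  `D (β c)` have no common values at nonzero rational vectors, or `g` is twice an odd number and no
  value of `D c` is a value of `D (β c)` times a sum of two squares (at nonzero vectors).

The condition on `Z` (`HarmlessProducts`): `γ` is killed on `M` by a rational polynomial all of whose
complex roots are products of algebraic numbers each of which is, for each `c`, unrelated to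
`K c` (an odd function on the embeddings of `K c` invariant under all automorphisms of `ℂ` that
fix a power of the number is zero) or of smaller degree than `K c`.  For example the Frobenius
polynomial of `Z` has only irreducible factors of smaller degree than all `K c`; in particular `Z`
may be isogenous over `k` to **any product of abelian varieties of dimension less than half of
the degrees `[K c : ℚ]`**.

**First part**: the theorem in general.  **Second part**: the fields `K c` are pairwise unrelated,
all `π c l` are ordinary, there are at most three of them for each field, and their slopes are
neither equal nor opposite (`DifferentSlopes`).  **Third part**: three Weil numbers, `x`, `y` in `F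
false` and `z` in `F true`, with only the slopes `0`, `1 / 2`, `1` and with `p`-ranks `f₁`, `f₂`, `f >
0`, nothing is assumed about the relation of the two fields, `[F false : ℚ] = 2 g` with odd `g`,
`2 k` is the number of embeddings at which `x` and `y` have the same slope minus the number of
those at which they have opposite slopes, both different from `1 / 2`, and the equation `f₁ X ^ 2 +
2 k X Y + f₂ Y ^ 2 = f Z ^ 2` has no integral solution with `(X, Y) ≠ (0, 0)`.

What is known: a point is not `ℓ`-Galois special if the Mumford-Tate conjecture holds for it and it is
not a CM point (see the problem); this gives the case `Z = 0` by the earlier results of this team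
on the Mumford-Tate conjecture (`SeveralTypesRelatedFields`, MP_33b3f9_ag), and the cases in which the
Mumford-Tate conjecture is known for `Z` (Commelin: it is then known for the product).  New are
the arbitrary `Z`.  The engine (multilinear forms on `V ⊕ M` are sums of mixed forms, and the mixed
Tate classes are products of Tate forms of degree two on `V` and of Tate classes on `M`) is the
one of `SumsWithMotives` (MP_de8692_ag); the starting library Y137.MV and the results of helper306
on products of harmless numbers are used there.
-/

set_option autoImplicit false

namespace Pool.Agent.Results.MP_09799c_ag.ArbitraryFactors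

open NumberField Module IntermediateField Pool.Agent.H204R3.GP Pool.Agent.TH170
  Pool.Agent.Y137.MV Pool.Agent.Y137.SL Pool.Agent.Y1.CT Pool.Agent.Q70.SQ Pool.Agent.Q70.MM

/-- **The `ℓ`-adic group of the point `(y, z)` is the `ℓ`-adic group of `Y₁ × Y₂`, if the divisor
classes of `B = A_y` extend over `Y₁` and `G_{ℓ, Y₂} = G_{ℓ, z}`, for the abelian varieties `B` with a
Frobenius element with several Weil numbers in the same CM field or in related CM fields, with
absolutely irreducible odd functions and separated quadratic forms of slopes (first part), for
instance at most three ordinary ones for each field (second part), or three Weil numbers in two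
arbitrary such fields with a ternary equation (third part), and for arbitrary `z` whose Frobenius
eigenvalues are products of numbers unrelated to these fields or of smaller degree.** -/
theorem result :
    (∀ (p : ℕ) [Fact p.Prime] (a : ℕ) (C : Type) [Fintype C] (K : C → Type)
      [∀ c, Field (K c)] [∀ c, NumberField (K c)] [∀ c, IsCMField (K c)]
      (J : C → Type) [∀ c, Fintype (J c)] (π : ∀ c, J c → K c), 0 < a →
      IsSystem p a π → SeparatedPairs p a π →
      TransferHolds p a K (fun i : Σ c, J c => K i.1) (fun i => π i.1 i.2)) ∧
    (∀ (p : ℕ) [Fact p.Prime] (a : ℕ) (C : Type) [Fintype C] (K : C → Type)
      [∀ c, Field (K c)] [∀ c, NumberField (K c)] [∀ c, IsCMField (K c)]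
      (J : C → Type) [∀ c, Fintype (J c)] (π : ∀ c, J c → K c), 0 < a →
      (∀ c l, ℚ⟮π c l⟯ = ⊤) →
      (∀ c l, π c l * IsCMField.complexConj (K c) (π c l) = (p : K c) ^ a) →
      (∀ c, OddAbsolutelyIrreducible (K c)) →
      (∀ c c', c ≠ c' → Pool.Agent.Y137.MV.Unrelated (K c) (K c')) →
      (∀ c, Fintype.card (J c) ≤ 3) → (∀ c l, IsOrdinary p a (π c l)) →
      (∀ c l l', l ≠ l' → DifferentSlopes p a (π c l) (π c l')) →
      TransferHolds p a K (fun i : Σ c, J c => K i.1) (fun i => π i.1 i.2)) ∧
    (∀ (p : ℕ) [Fact p.Prime] (a : ℕ) (F : Bool → Type)
      [∀ b, Field (F b)] [∀ b, NumberField (F b)] [∀ b, IsCMField (F b)]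
      (x y : F false) (z : F true) (f₁ f₂ f : ℕ) (k : ℤ), 0 < a →
      IsTriple p a x y z f₁ f₂ f k →
      TransferHolds p a F (fun i : Σ b : Bool, Fin (cond b 1 2) => F i.1)
        (fun i => twoOne x y z i.1 i.2)) := by
  refine ⟨?_, ?_, ?_⟩
  · intro p _ a C _ K _ _ _ J _ π ha hS hsep
    exact transferHolds (fun c => (hS.abs c).1) (fun i => hS.gen i.1 i.2)
      (fun i => hS.weil i.1 i.2) (angle_of_forms π ha hS.weil hS.abs hS.slopes hsep)
  · intro p _ a C _ K _ _ _ J _ π ha hg hw habs hun hcard hord hdiff
    exact transferHolds (fun c => (habs c).1) (fun i => hg i.1 i.2) (fun i => hw i.1 i.2)
      (angle_same π ha hw habs hun (independent_of_three π ha hcard hord hdiff))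
  · intro p _ a F _ _ _ x y z f₁ f₂ f k ha hT
    exact transferHolds (J := fun b : Bool => Fin (cond b 1 2)) (π := twoOne x y z)
      (fun b => by
        cases b
        · exact hT.abs.1.1
        · exact hT.abs.2.1) (triple_gen hT) (triple_weil hT) (angle_triple ha hT)

end Pool.Agent.Results.MP_09799c_ag.ArbitraryFactors
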