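import Pool.Agent.Q328.VD.Many
import Pool.Agent.Results.MP_c1bb77_ag.FewDigitMembers
import Pool.Agent.Results.MP_09799c_ag.ArbitraryFactors

/-!
# Points `(y, z)`, `y` near an arbitrary integral point of a family and `z` arbitrary, are not `ℓ`-Galois special

Let `A` be a family of principally polarized abelian varieties over an open subset of the affine space of dimension `d` over
`𝓞 k[1/N]`, `k` a number field, and let `A_t` be the member at the integral point `t`, `y_t` its point in the moduli space. For each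
`t` and each point `z` of a moduli space let `x = (y_t, z)`, the point of `A_t × A_z`. The Mumford-Tate conjecture is not known for
`z`, and so it is not known for `x`.

At a place above the prime number `p` the characteristic polynomial of the Frobenius element on the Tate module of `A_t` depends only
on the residue class of `t` modulo `p`. Call it of general type of degree `D` if it is the product of the minimal polynomials of Weil
numbers generating CM fields `K c` of degrees at least `D`, with absolutely irreducible odd functions and slopes in general position,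
as in `ArbitraryFactors`; for instance if it is irreducible of degree `D = 2 g`, with Galois group the group of all signed
permutations, and not supersingular (by the theorem of Chavdarov these are almost all residue classes modulo `p`, for large `p`, if
the monodromy group of the family is the full symplectic group).

**Theorem.** Suppose that there is a set `P` of prime numbers with at least `y ^ θ` elements up to `y` for large `y`, such that for all
`p ∈ P` a proportion at least `κ > 0` of the residue classes modulo `p` is good and of general type of degree `D`. Let an ARBITRARY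
integral point be given, whose coordinates have at most `K` digits in base `b`. Choose for each coordinate `r` of the `K` positions
and replace the digits at these positions by arbitrary other digits; let `C log K ≤ r ≤ K / 2`. Then for all but a proportion
`K ^ (-B)` of the choices the following is true for the new point `t`, **for all `ℓ` and for ALL `z` simultaneously**, such that, with
the exception of at most `m` primes `p ∈ P`, the eigenvalues of the Frobenius element on the `ℓ`-adic realization `M` of `z` are products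
of algebraic numbers of degree less than `D` (for instance all abelian varieties `A_z` of dimension less than `D / 2` over `k`, all
products of such abelian varieties, and motives constructed from them, which have good reduction at all but at most `m`
primes of `P`): the groups `G_{ℓ, x}` and `G_{ℓ, Y₁ × Y₂}` have the same Tate classes, for all subvarieties `Y₁` through `y_t` over which
the Hodge classes of degree two of `A_t` extend and all `Y₂` through `z` with `G_{ℓ, Y₂} = G_{ℓ, z}`, for instance `Y₂ = {z}`.

The groups are reductive and determined by these classes. If `A_t` is not of CM type one takes for `Y₁` the special subvariety of `y_t`,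
which has positive dimension, and obtains: **the point `x = (y_t, z)` is not `ℓ`-Galois special** (this deduction, from the
definition of `ℓ`-Galois special points, is not formalized). Here `B` and `m` are arbitrary, and `C` and `K₀` depend only on the family,
`P`, `κ`, `θ`, `b`, `B` and `m`, but not on the point, on the new digits, on `ℓ` or on `z`.

The proof combines `ArbitraryFactors` (first part) at one prime number with the law for the residues, modulo many small primes, of
vectors of which few digits are changed (`Pool.Agent.Q328.VD`).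
-/

set_option autoImplicit false

namespace Pool.Agent.Results.MP_09799c_ag.FewDigitMembers

open NumberField Module Polynomial Pool.Agent.H204R3.GP Pool.Agent.TH170 Pool.Agent.Y137.MV Pool.Agent.Q70.SQ
  Pool.Agent.Q70.MM Pool.Agent.Results.MP_c1bb77_ag.FewDigitMembers

/-- A CM field. -/
structure CMField where
  E : Type
  [field : Field E]
  [numberField : NumberField E]
  [cm : IsCMField E]

attribute [instance] CMField.field CMField.numberField CMField.cm

/-- The polynomial `Q` is of general type of degree `D`: it is the product of the minimal polynomials of Weil numbers `π c l` (with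
`p ^ a` elements in the residue field) generating CM fields `K c` of degree at least `D`, with the properties `IsSystem` and
`SeparatedPairs` of `ArbitraryFactors`. -/
def GeneralType (p a D : ℕ) (Q : ℚ[X]) : Prop :=
  ∃ (_ : Fact p.Prime) (C : Type) (_ : Fintype C) (K : C → CMField) (J : C → Type) (_ : ∀ c, Fintype (J c))
    (π : ∀ c, J c → (K c).E), IsSystem p a π ∧ SeparatedPairs p a π ∧ (∀ c, D ≤ finrank ℚ (K c).E) ∧
      Q = ∏ i : Σ c, J c, minpoly ℚ (π i.1 i.2)

/-- The complex roots of the polynomial `R ≠ 0` are different from zero and products of algebraic numbers of degree less than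
`D`. -/
def SmallRoots (D : ℕ) (R : ℚ[X]) : Prop :=
  R ≠ 0 ∧ ∀ x : ℂ, aeval x R = 0 → x ≠ 0 ∧ ∃ (n : ℕ) (y : Fin n → ℂ),
    (∀ l, IsAlgebraic ℚ (y l) ∧ (minpoly ℚ (y l)).natDegree < D) ∧ x = ∏ l, y l

section classes

variable {Γ W T : Type} [Group Γ] [AddCommGroup W] [Module ℚ W] [AddCommGroup T] [Module ℂ T] {V : ℕ → Type}
  [∀ ℓ, AddCommGroup (V ℓ)] [∀ (ℓ : ℕ) [Fact ℓ.Prime], Module ℚ_[ℓ] (V ℓ)]

/-- The `ℓ`-adic groups of the points `(y, z)` and of the subvarieties `Y₁ × Y₂` through this point have the same Tate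
classes, if the Hodge classes of degree two of `A_y = X` extend over `Y₁` and if the groups of `z` and of `Y₂` have the same Tate
classes. Here `τ` is the action of the Galois group `Γ` on the realization `M` of `z`, `Γ'` is the fundamental group of an open
part of `Y₁ × Y₂`, with its actions `ρ'`, `τ'` and its cyclotomic character `χ'`, and `sp` is the specialization map. -/
def SameGroups (X : AV Γ W T V) (ℓ : ℕ) [Fact ℓ.Prime] (χ : Γ →* ℚ_[ℓ]) {M : Type} [AddCommGroup M] [Module ℚ_[ℓ] M]
    (τ : Representation ℚ_[ℓ] Γ M) : Prop :=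
  ∀ (Γ' : Type) [Group Γ'] (sp : Γ →* Γ') (ρ' : Representation ℚ_[ℓ] Γ' (V ℓ)) (τ' : Representation ℚ_[ℓ] Γ' M)
    (χ' : Γ' →* ℚ_[ℓ]), Specializes sp (X.ρ ℓ) τ χ ρ' τ' χ' → DivisorsExtend X.per (X.comp ℓ) ρ' χ' →
    SameTateClasses τ χ τ' χ' → SameTateClasses (sumRep (X.ρ ℓ) τ) χ (sumRep ρ' τ') χ'

variable [∀ (ℓ : ℕ) [Fact ℓ.Prime], FiniteDimensional ℚ_[ℓ] (V ℓ)]

/-- The good residue classes modulo `p` of general type. -/
def generalClasses {d : ℕ} (A : Family Γ W T V d) (D p : ℕ) : Set (Fin d → ZMod p) :=
  {x | x ∈ A.good p ∧ GeneralType p (A.a p) D (A.Frob p x)}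

/-- The `ℓ`-adic representation `τ` is small: with at most `m` exceptions, the Frobenius element `γ p` at the primes `p ≠ ℓ` in `P` is
killed by a rational polynomial whose roots are products of algebraic numbers of degree less than `D`. -/
def Small {d : ℕ} (A : Family Γ W T V d) (P : ℕ → Prop) (D m : ℕ) (ℓ : ℕ) [Fact ℓ.Prime] {M : Type} [AddCommGroup M]
    [Module ℚ_[ℓ] M] (τ : Representation ℚ_[ℓ] Γ M) : Prop :=
  ∃ bad : Finset ℕ, bad.card ≤ m ∧ ∀ p, P p → p ∉ bad → p ≠ ℓ →
    ∃ R : ℚ[X], SmallRoots D R ∧ aeval (τ (A.γ p)) (R.map (algebraMap ℚ ℚ_[ℓ])) = 0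

/-- One prime number with a residue class of general type at which the representation is small suffices. -/
lemma one_prime {d : ℕ} (A : Family Γ W T V d) (D : ℕ) (t : Fin d → ℤ) (p : ℕ) (hp : p.Prime)
    (ht : red p t ∈ generalClasses A D p) (ℓ : ℕ) [Fact ℓ.Prime] (hl : p ≠ ℓ) {M : Type} [AddCommGroup M] [Module ℚ_[ℓ] M]
    [FiniteDimensional ℚ_[ℓ] M] (τ : Representation ℚ_[ℓ] Γ M) (R : ℚ[X]) (hR : SmallRoots D R)
    (hk : aeval (τ (A.γ p)) (R.map (algebraMap ℚ ℚ_[ℓ])) = 0) : SameGroups (A.A t) ℓ (A.χ ℓ) τ := by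
  obtain ⟨hg, hfact, C, _, K, J, _, π, hS, hsep, hD, hQ⟩ := ht
  have htU := A.mem p hp t hg
  have ha := A.properties t htU ℓ
  intro Γ' _ sp ρ' τ' χ' hsp hdiv hsame
  refine ArbitraryFactors.result.1 p (A.a p) C (fun c => (K c).E) J π (A.degree p hp) hS hsep ℓ W T (V ℓ) M Γ Γ'
    (A.A t).per (A.A t).pol ((A.A t).comp ℓ) ((A.A t).ρ ℓ) (A.χ ℓ) ((A.A t).ω ℓ) τ ρ' τ' χ' sp (A.γ p) R
    ⟨A.hodge t htU, ha.alternating, ha.nondegenerate, ha.invariant, ha.compatible, ha.semisimple, ha.endomorphisms⟩
    (A.cyclotomic p hp ℓ hl) ?_ hR.1 hk ?_ hsp hdiv hsame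
  · have h1 := A.charpoly p hp ℓ hl t hg
    unfold HasCharpoly at h1
    rw [h1, hQ, Polynomial.map_prod]
  · intro x hx
    obtain ⟨h0, n, y, hy, hxy⟩ := hR.2 x hx
    exact ⟨h0, n, y, fun l => ⟨(hy l).1, fun c => Or.inr ((hy l).2.trans_le (hD c))⟩, hxy⟩

end classes

/-- **The points `(y_t, z)`, `t` near an arbitrary integral point and `z` arbitrary, have the `ℓ`-adic groups of subvarieties of
positive dimension.** -/
theorem result {Γ W T : Type} [Group Γ] [AddCommGroup W] [Module ℚ W] [AddCommGroup T] [Module ℂ T] {V : ℕ → Type}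
    [∀ ℓ, AddCommGroup (V ℓ)] [∀ (ℓ : ℕ) [Fact ℓ.Prime], Module ℚ_[ℓ] (V ℓ)]
    [∀ (ℓ : ℕ) [Fact ℓ.Prime], FiniteDimensional ℚ_[ℓ] (V ℓ)] {d : ℕ} (A : Family Γ W T V d) (D : ℕ)
    (P : ℕ → Prop) (κ θ : ℝ) (hκ : 0 < κ) (hθ : 0 < θ)
    (hP : ∀ p, P p → p.Prime ∧ κ * (p : ℝ) ^ d ≤ ((generalClasses A D p).ncard : ℝ))
    (hcount : ∃ y₀ : ℕ, ∀ y : ℕ, y₀ ≤ y → (y : ℝ) ^ θ ≤ (({p : ℕ | P p ∧ p ≤ y}).ncard : ℝ)) :
    ∀ (b : ℕ), 2 ≤ b → ∀ (m : ℕ) (B : ℝ), 0 < B →
      ∃ C : ℝ, 0 < C ∧ ∃ K₀ : ℕ, ∀ K : ℕ, K₀ ≤ K → ∀ r : ℕ, C * Real.log K ≤ r → 2 * r ≤ K →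
      -- every integral point with coordinates with at most `K` digits and all new digits
      ∀ (s : Fin d → ℤ) (N : Fin d → ℕ) (f : Fin d → ℕ → ℕ), Admissible b K s N f →
        ∃ Ex ⊆ choices d r K, (Ex.card : ℝ) ≤ (K : ℝ) ^ (-B) * (K.choose r : ℝ) ^ d ∧
          ∀ S ∈ choices d r K, S ∉ Ex → changed b K s N f S ∈ A.U ∧
            -- all `ℓ` and all small representations, simultaneously
            ∀ (ℓ : ℕ) [Fact ℓ.Prime] (M : Type) [AddCommGroup M] [Module ℚ_[ℓ] M] [FiniteDimensional ℚ_[ℓ] M]
              (τ : Representation ℚ_[ℓ] Γ M), Small A P D m ℓ τ →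
              SameGroups (A.A (changed b K s N f S)) ℓ (A.χ ℓ) τ := by
  classical
  intro b hb m B hB
  obtain ⟨C, hC, K₀, h⟩ := Pool.Agent.Q328.VD.many_fin (m + 1) b hb B 1 κ θ hB one_pos hκ hθ d P
    (fun p => generalClasses A D p) (fun p hp => ⟨(hP p hp).1, by
      have := (hP p hp).2
      rwa [← Nat.card_coe_set_eq] at this⟩) hcount
  refine ⟨C, hC, K₀, fun K hK r hr hrK s N f hA => ?_⟩
  obtain ⟨Ex, hEx⟩ : ∃ Ex : Finset (Fin d → Finset ℕ), Ex =
      (choices d r K).filter (fun S => Set.ncard {p : ℕ | P p ∧ (p : ℝ) ≤ (K : ℝ) ^ (1 : ℝ) ∧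
        red p (changed b K s N f S) ∈ generalClasses A D p} ≤ m + 1) := ⟨_, rfl⟩
  refine ⟨Ex, by rw [hEx]; exact Finset.filter_subset _ _, ?_, fun S hS hS2 => ?_⟩
  · rw [hEx]
    exact h K hK r hr hrK N hA.2.1 s hA.1 f hA.2.2
  · rw [hEx, Finset.mem_filter, not_and] at hS2
    have h2 : m + 1 < Set.ncard {p : ℕ | P p ∧ (p : ℝ) ≤ (K : ℝ) ^ (1 : ℝ) ∧
        red p (changed b K s N f S) ∈ generalClasses A D p} := not_le.1 (hS2 hS)
    obtain ⟨Good, hGood⟩ : ∃ G : Set ℕ, G = {p : ℕ | P p ∧ (p : ℝ) ≤ (K : ℝ) ^ (1 : ℝ) ∧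
        red p (changed b K s N f S) ∈ generalClasses A D p} := ⟨_, rfl⟩
    rw [← hGood] at h2
    have hmem : ∀ p ∈ Good, P p ∧ red p (changed b K s N f S) ∈ generalClasses A D p := by
      intro p hp
      rw [hGood] at hp
      exact ⟨hp.1, hp.2.2⟩
    have hex : ∀ E : Finset ℕ, E.card ≤ m + 1 → ∃ p ∈ Good, p ∉ E := by
      intro E hE
      by_contra hcon
      push Not at hcon
      have h3 : Good.ncard ≤ E.card := by
        rw [← Set.ncard_coe_finset]
        exact Set.ncard_le_ncard (fun p hp => hcon p hp) E.finite_toSet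
      omega
    refine ⟨?_, fun ℓ _ M _ _ _ τ hτ => ?_⟩
    · obtain ⟨p, hp, -⟩ := hex ∅ (by simp)
      exact A.mem p (hP p (hmem p hp).1).1 _ (hmem p hp).2.1
    · obtain ⟨bad, hbad, hτ⟩ := hτ
      obtain ⟨p, hp, hpE⟩ := hex (insert ℓ bad) ((Finset.card_insert_le _ _).trans (by omega))
      rw [Finset.mem_insert, not_or] at hpE
      obtain ⟨R, hR, hk⟩ := hτ p (hmem p hp).1 hpE.2 hpE.1
      exact one_prime A D _ p (hP p (hmem p hp).1).1 (hmem p hp).2 ℓ hpE.1 τ R hR hk

end Pool.Agent.Results.MP_09799c_ag.FewDigitMembers
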