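import Pool.Agent.Q71.MM.Trf3

/-!
# `ℓ`-Galois special points: factors with a place of toric rank one, and arbitrary small factors

Let `x` be a point of the moduli space of principally polarized abelian varieties, defined over a
field `k` finitely generated over `ℚ`, such that `A_x` is isogenous to `A × Z`, `A = A_y`, `Z = A_z`.
Let `Y = Y₁ × Y₂` be a subvariety through `x` (more precisely, a component of the image of a product
under a Hecke correspondence), defined over `k`, with `y ∈ Y₁`, `z ∈ Y₂`.

* `Γ` is the Galois group of `k`, `Γ'` the fundamental group of a smooth open part of `Y` over `k` (or
  the Galois group of the function field of `Y`), `sp : Γ → Γ'` the specialization at `x`, `χ` and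
  `χ'` are the cyclotomic characters.
* `A` and `M` (`Two`) are the Tate modules of `A` and of `Z`, with coefficients in an algebraic
  closure `K` of `ℚ_ℓ`, with the actions of both groups. The abelian variety `Z` is arbitrary, the
  Mumford-Tate conjecture is not assumed for it; `M` can be any representation.
* The Tate module of `A` is, after a finite extension of `k`, a direct sum of copies of pairwise
  nonisomorphic representations `T j` with an alternating form with the multiplier `χ`, irreducible
  under all open subgroups, such that **some element of `Γ` acts on `T j` by a transvection (an
  element of the inertia group at a place at which the corresponding factor of `A` has toric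
  rank one) or with the slopes `h + c`, `h - c`, once each, and `h`** (a Frobenius element at a place
  with such slopes). This includes all `A` isogenous to products of powers of abelian varieties
  `A_j` with `End(A_j) = ℤ` and toric rank one at some place (Hall); more generally, for `End(A_j)` a
  totally real field, the representations `T j` are the parts of the Tate module.
* `M` is small: it is spanned by the images of representations `U` with `AltSmall` for all `T j`
  (for example `2 dim Z < dim T j`, or `Z` has good reduction, or small toric rank, at the place where
  `A_j` has toric rank one - if `dim T j` is not too small - or few pairs of slopes).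
* `DivisorsExtend`: the Tate (Hodge) classes of degree two of `A` are Tate classes at the generic
  point of `Y`; this is true if `Y₁` is the special subvariety of `y`, or contained in it.

**Theorem.** The Tate tensors of `A_x` are the Tate tensors of `Γ'` on the tensor constructions of
the Tate module of `A_x` if and only if the same is true for `Z`; that is, since the groups are
reductive (Faltings, Deligne), `G_{ℓ, Y} = G_{ℓ, x}` if and only if `G_{ℓ, Y₂} = G_{ℓ, z}`.

Consequences (these deductions are not formalized). If `y` is not a CM point, let `Y₁` be its special
subvariety (`dim Y₁ > 0`) and `Y₂ = {z}`: then `G_{ℓ, Y} = G_{ℓ, x}` and `dim Y > 0`, so `x` is not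
`ℓ`-Galois special, as the problem predicts, whatever `z` is. (The `y` above are not CM points, since
`T j` is irreducible under all open subgroups and of dimension at least two.) In particular the
assertion of the problem holds for all points `(y, z)` with `y` the point of an abelian variety with
`End = ℤ` and toric rank one at some place and `z` any point with `dim A_z < dim A_y`. This was
known only if the Mumford-Tate conjecture is known for `z` (Commelin's theorem on products). The
theorem of the other seat of our team (`ArbitraryFactors`) needs one Frobenius element whose
characteristic polynomial generates CM fields with irreducible odd functions and independent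
slopes; the local conditions here are different.

The proof: a Tate form of `Γ` on the sum is decomposed into forms on the `T j` and on `M`; by the
results on Lie algebras with a long root element (`Q71.MM`) the parts on the `T j` are killed by the
symplectic Lie algebras, hence they are combinations of products of the polarizations, and the part
on `M` is a Tate form, for which the hypothesis can be used. The elements of `Γ'` respect the
decomposition of the Tate module of `A` since they multiply all Tate forms of degree two by `χ'`.
-/

set_option autoImplicit false

namespace Pool.Agent.Results.MP_09799c_ag.TransvectionFactors

open Pool.Agent.Y127.G Pool.Agent.Q71.AB.P Pool.Agent.Q71.MM.P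

/-- **The `ℓ`-adic groups of `(y, z)` and of `Y₁ × Y₂` have the same Tate tensors if and only if those
of `z` and of `Y₂` have, for abelian varieties `A_y` with transvections or three slopes and small
`A_z`.** -/
theorem result {K : Type} [Field K] [CharZero K] [IsAlgClosed K] {Γ Γ' : Type} [Group Γ]
    [Group Γ'] {sp : Γ →* Γ'} {χ : Γ →* Kˣ} {χ' : Γ' →* Kˣ} (hχ : ∀ g, χ' (sp g) = χ g)
    {J : Type} {T : J → FRep K Γ} {A M : Two K sp} (hT : ∀ j, Full χ (T j))
    (hiso : ∀ i j, i ≠ j → ¬PotIso K (act (T i)) (act (T j))) (hA : IsSumOf T A.rep)
    (hM : HasPieces (fun U => ∀ j, AltSmall (T j) U) M.rep)
    (hE : DivisorsExtend χ χ' (act A.rep) (bact A)) :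
    SameTate χ χ' (prodAct (act A.rep) (act M.rep)) (prodAct (bact A) (bact M)) ↔
      SameTate χ χ' (act M.rep) (bact M) :=
  Pool.Agent.Q71.MM.same_main hχ hT hiso hA hM hE

end Pool.Agent.Results.MP_09799c_ag.TransvectionFactors
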